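import Mathlib
import Pool.Agent.helper7.DF.All

/-!
# MP_60f069_nt: there are few binomial coefficients of positive deficiency

Let `c > 1`, `ε > 0`. The number of the pairs `(n, k)`, `1 ≤ k ≤ n ≤ X`, `k ≥ (log X)^c`, for which the deficiency of `C(n+k, k)` is defined is `O(X^(1/2 + 1/(2c) + ε))`;
the number of those with `k ≤ (log X)^c` and deficiency at least one is `O(X^(1 - 1/c + ε))`. With `c = 3`: the number of all the pairs `(n, k)`, `1 ≤ k ≤ n ≤ X`, of deficiency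
at least one is `O(X^(2/3 + ε))`.
-/

set_option autoImplicit false

open Finset

namespace Pool.Agent.Results.MP_60f069_nt.FewPairs

/-- The factorisation of the problem: `n + i = a_i b_i` for `1 ≤ i ≤ k`, every prime factor of `b_i` is greater than `k`, and the product of the `a_i` is `k!`. -/
structure Factorisation (n k : ℕ) (a b : ℕ → ℕ) : Prop where
  eq : ∀ i ∈ Icc 1 k, n + i = a i * b i
  big : ∀ i ∈ Icc 1 k, ∀ p : ℕ, p.Prime → p ∣ b i → k < p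
  prod : ∏ i ∈ Icc 1 k, a i = k.factorial

/-- The deficiency of `C(n+k, k)` is defined. -/
def IsDefined (n k : ℕ) : Prop := ∃ a b : ℕ → ℕ, Factorisation n k a b

/-- The deficiency of `C(n+k, k)` is defined and equal to `d`: the number of the indices `i`, `1 ≤ i ≤ k`, with `b_i = 1`. -/
def HasDeficiency (n k d : ℕ) : Prop := ∃ a b : ℕ → ℕ, Factorisation n k a b ∧ #{i ∈ Icc 1 k | b i = 1} = d

/-- The pairs `(n, k)`, `1 ≤ k ≤ n ≤ X`, of defined deficiency at least one. -/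
def positivePairs (X : ℕ) : Set (ℕ × ℕ) := {z | 1 ≤ z.2 ∧ z.2 ≤ z.1 ∧ z.1 ≤ X ∧ ∃ d : ℕ, 1 ≤ d ∧ HasDeficiency z.1 z.2 d}

/-- The pairs `(n, k)`, `1 ≤ k ≤ n ≤ X`, of defined deficiency at least one and with `k ≤ (log X)^c`. -/
def smallPairs (c : ℝ) (X : ℕ) : Set (ℕ × ℕ) := {z | z ∈ positivePairs X ∧ (z.2 : ℝ) ≤ Real.log X ^ c}

/-- The pairs `(n, k)`, `1 ≤ k ≤ n ≤ X`, with defined deficiency (of any value) and `k ≥ (log X)^c`. -/
def largePairs (c : ℝ) (X : ℕ) : Set (ℕ × ℕ) := {z | 1 ≤ z.2 ∧ z.2 ≤ z.1 ∧ z.1 ≤ X ∧ IsDefined z.1 z.2 ∧ Real.log X ^ c ≤ (z.2 : ℝ)}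

private lemma toGood (n k : ℕ) (a b : ℕ → ℕ) (h : Factorisation n k a b) : Pool.Agent.DFO.Good n k a b :=
  ⟨h.eq, h.big, h.prod⟩

private lemma ofGood (n k : ℕ) (a b : ℕ → ℕ) (h : Pool.Agent.DFO.Good n k a b) : Factorisation n k a b :=
  ⟨h.eq, h.big, h.prod⟩

private lemma fin_of (X : ℕ) (S : Set (ℕ × ℕ)) (h : ∀ z ∈ S, z.2 ≤ z.1 ∧ z.1 ≤ X) : S.Finite := by
  have hfin : (((Iic X ×ˢ Iic X : Finset (ℕ × ℕ)) : Set (ℕ × ℕ))).Finite := Finset.finite_toSet _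
  refine hfin.subset ?_
  intro z hz
  obtain ⟨z2, z3⟩ := h z hz
  simp only [Finset.coe_product, Finset.coe_Iic, Set.mem_prod, Set.mem_Iic]
  exact ⟨z3, z2.trans z3⟩

private lemma small_eq (c : ℝ) (X : ℕ) : smallPairs c X = {z : ℕ × ℕ | 1 ≤ z.2 ∧ z.2 ≤ z.1 ∧ z.1 ≤ X ∧ (z.2 : ℝ) ≤ Real.log X ^ c ∧
    ∃ a b : ℕ → ℕ, Pool.Agent.DFO.Good z.1 z.2 a b ∧ ∃ j ∈ Icc 1 z.2, b j = 1} := by
  ext z
  constructor
  · rintro ⟨⟨z1, z2, z3, d, hd, a, b, hab, hcard⟩, z4⟩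
    refine ⟨z1, z2, z3, z4, a, b, toGood _ _ _ _ hab, ?_⟩
    have hpos : 0 < #{i ∈ Icc 1 z.2 | b i = 1} := by rw [hcard]; exact hd
    obtain ⟨j, hj⟩ := Finset.card_pos.mp hpos
    rw [Finset.mem_filter] at hj
    exact ⟨j, hj.1, hj.2⟩
  · rintro ⟨z1, z2, z3, z4, a, b, hab, j, hj, hb⟩
    refine ⟨⟨z1, z2, z3, _, ?_, a, b, ofGood _ _ _ _ hab, rfl⟩, z4⟩
    exact Finset.card_pos.mpr ⟨j, by rw [Finset.mem_filter]; exact ⟨hj, hb⟩⟩

private lemma large_eq (c : ℝ) (X : ℕ) : largePairs c X = {z ∈ Pool.Agent.DFO.Pairs X | Real.log X ^ c ≤ (z.2 : ℝ)} := by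
  ext z
  constructor
  · rintro ⟨z1, z2, z3, ⟨a, b, hab⟩, z0⟩
    exact ⟨⟨z1, z2, z3, a, b, toGood _ _ _ _ hab⟩, z0⟩
  · rintro ⟨⟨z1, z2, z3, a, b, hab⟩, z0⟩
    exact ⟨z1, z2, z3, ⟨a, b, ofGood _ _ _ _ hab⟩, z0⟩

/-- For every `c > 1` and `ε > 0` there is a `C` such that for every `X`: at most `C X^(1 - 1/c + ε)` pairs `(n, k)`, `1 ≤ k ≤ n ≤ X`, `k ≤ (log X)^c`, have deficiency at least
one; at most `C X^(1/2 + 1/(2c) + ε)` pairs `(n, k)`, `1 ≤ k ≤ n ≤ X`, `k ≥ (log X)^c`, have a defined deficiency; and at most `C X^(2/3 + ε)` pairs `(n, k)`, `1 ≤ k ≤ n ≤ X`,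
have deficiency at least one. -/
theorem result : ∀ c ε : ℝ, 1 < c → 0 < ε → ∃ C : ℝ, ∀ X : ℕ,
    ((smallPairs c X).Finite ∧ ((smallPairs c X).ncard : ℝ) ≤ C * (X : ℝ) ^ (1 - 1 / c + ε)) ∧
    ((largePairs c X).Finite ∧ ((largePairs c X).ncard : ℝ) ≤ C * (X : ℝ) ^ (1 / 2 + 1 / (2 * c) + ε)) ∧
    ((positivePairs X).Finite ∧ ((positivePairs X).ncard : ℝ) ≤ C * (X : ℝ) ^ (2 / 3 + ε)) := by
  intro c ε hc hε
  obtain ⟨C1, hC1⟩ := Pool.Agent.DFO.all_CSC c ε hc hε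
  obtain ⟨C2, hC2⟩ := Pool.Agent.DFO.all_CLC c ε hc hε
  obtain ⟨C3, hC3⟩ := Pool.Agent.DFO.all_CSC 3 ε (by norm_num) hε
  obtain ⟨C4, hC4⟩ := Pool.Agent.DFO.all_CLC 3 ε (by norm_num) hε
  refine ⟨max C1 (max C2 (C3 + C4)), fun X => ?_⟩
  have fs : ∀ c' : ℝ, (smallPairs c' X).Finite := fun c' =>
    fin_of X _ (fun z hz => ⟨hz.1.2.1, hz.1.2.2.1⟩)
  have fl : ∀ c' : ℝ, (largePairs c' X).Finite := fun c' =>
    fin_of X _ (fun z hz => ⟨hz.2.1, hz.2.2.1⟩)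
  have fp : (positivePairs X).Finite := fin_of X _ (fun z hz => ⟨hz.2.1, hz.2.2.1⟩)
  refine ⟨⟨fs c, ?_⟩, ⟨fl c, ?_⟩, ⟨fp, ?_⟩⟩
  · have h := hC1 X
    rw [← small_eq] at h
    exact h.trans (mul_le_mul_of_nonneg_right (le_max_left _ _) (Real.rpow_nonneg (Nat.cast_nonneg X) _))
  · have h := hC2 X
    rw [← large_eq] at h
    exact h.trans (mul_le_mul_of_nonneg_right ((le_max_left _ _).trans (le_max_right _ _))
      (Real.rpow_nonneg (Nat.cast_nonneg X) _))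
  · have h3 := hC3 X
    rw [← small_eq] at h3
    have h4 := hC4 X
    rw [← large_eq] at h4
    have e3 : (1 - 1 / 3 + ε : ℝ) = 2 / 3 + ε := by ring
    have e4 : (1 / 2 + 1 / (2 * 3) + ε : ℝ) = 2 / 3 + ε := by ring
    rw [e3] at h3
    rw [e4] at h4
    have hsub : positivePairs X ⊆ smallPairs 3 X ∪ largePairs 3 X := by
      intro z hz
      rcases le_total (z.2 : ℝ) (Real.log X ^ (3 : ℝ)) with h | h
      · exact Or.inl ⟨hz, h⟩
      · obtain ⟨z1, z2, z3, d, hd, a, b, hab, hcard⟩ := hz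
        exact Or.inr ⟨z1, z2, z3, ⟨a, b, hab⟩, h⟩
    have hcard : (positivePairs X).ncard ≤ (smallPairs 3 X).ncard + (largePairs 3 X).ncard :=
      (Set.ncard_le_ncard hsub ((fs 3).union (fl 3))).trans (Set.ncard_union_le _ _)
    have hcard' : ((positivePairs X).ncard : ℝ) ≤ ((smallPairs 3 X).ncard : ℝ) + ((largePairs 3 X).ncard : ℝ) := by
      exact_mod_cast hcard
    calc ((positivePairs X).ncard : ℝ) ≤ C3 * (X : ℝ) ^ (2 / 3 + ε) + C4 * (X : ℝ) ^ (2 / 3 + ε) :=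
          hcard'.trans (add_le_add h3 h4)
      _ = (C3 + C4) * (X : ℝ) ^ (2 / 3 + ε) := by ring
      _ ≤ max C1 (max C2 (C3 + C4)) * (X : ℝ) ^ (2 / 3 + ε) :=
          mul_le_mul_of_nonneg_right ((le_max_right _ _).trans (le_max_right _ _))
            (Real.rpow_nonneg (Nat.cast_nonneg X) _)

end Pool.Agent.Results.MP_60f069_nt.FewPairs
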